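import Pool.Agent.Helper9.WS.Defs

/-!
# WS-14: the Gauss sum identity for the elliptic families
-/

open MvPolynomial Finset

namespace Pool.Agent.Helper9.WS

/-- sums over `Fin 4 → K` -/
private theorem sum_fin4_68 {K L : Type} [Fintype K] [AddCommMonoid L] (f : (Fin 4 → K) → L) :
    ∑ x : Fin 4 → K, f x = ∑ x : K, ∑ t : K, ∑ z : K, ∑ z' : K, f ![t, x, z, z'] := by
  let e : K × K × K × K ≃ (Fin 4 → K) :=
    { toFun := fun q => ![q.2.1, q.1, q.2.2.1, q.2.2.2]
      invFun := fun x => (x 1, x 0, x 2, x 3)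
      left_inv := fun q => rfl
      right_inv := fun x => by
        funext i
        fin_cases i <;> rfl }
  rw [← Equiv.sum_comp e, Fintype.sum_prod_type]
  refine Finset.sum_congr rfl fun x _ => ?_
  rw [Fintype.sum_prod_type]
  refine Finset.sum_congr rfl fun t _ => ?_
  rw [Fintype.sum_prod_type]
  rfl

/-- evaluation of `ell4` -/
private theorem aeval_ell4_68 {k : Type} [Field k] {K : Type} [Field K] [Algebra k K]
    (F : Polynomial (Polynomial k)) (g : Polynomial k) (y : Fin 4 → K) :
    MvPolynomial.aeval y (ell4 F g) =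
      Polynomial.aeval (y 0) g + y 2 * ellVal F (y 1) (y 0) + y 3 := by
  have h1 : MvPolynomial.aeval y (Polynomial.aeval (X 0 : MvPolynomial (Fin 4) k) g) =
      Polynomial.aeval (y 0) g := by
    rw [← Polynomial.aeval_algHom_apply, MvPolynomial.aeval_X]
  have h2 : MvPolynomial.aeval y (ellVal F (X 1 : MvPolynomial (Fin 4) k) (X 0)) =
      ellVal F (y 1) (y 0) := by
    unfold ellVal
    have h3 := Polynomial.hom_eval₂ F (Polynomial.aeval (X 0 : MvPolynomial (Fin 4) k)).toRingHom
      (MvPolynomial.aeval y : MvPolynomial (Fin 4) k →ₐ[k] K).toRingHom (X 1)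
    have h4 : (MvPolynomial.aeval y : MvPolynomial (Fin 4) k →ₐ[k] K).toRingHom.comp
        (Polynomial.aeval (X 0 : MvPolynomial (Fin 4) k)).toRingHom =
        (Polynomial.aeval (y 0) : Polynomial k →ₐ[k] K).toRingHom := by
      refine RingHom.ext fun q => ?_
      show MvPolynomial.aeval y (Polynomial.aeval (X 0 : MvPolynomial (Fin 4) k) q) =
        Polynomial.aeval (y 0) q
      rw [← Polynomial.aeval_algHom_apply, MvPolynomial.aeval_X]
    rw [h4] at h3
    have h5 : (MvPolynomial.aeval y : MvPolynomial (Fin 4) k →ₐ[k] K).toRingHom (X 1) = y 1 :=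
      MvPolynomial.aeval_X _ _
    rw [h5] at h3
    exact h3
  unfold ell4
  rw [map_add, map_add, map_mul, MvPolynomial.aeval_X, MvPolynomial.aeval_X, h1, h2]

/-- the Teichmüller representative to the power `(|K| - 1) / 2` -/
private theorem teich68 {p : ℕ} [Fact p.Prime] (hp : p ≠ 2) {κ L : Type} [Field κ] [CharP κ p]
    [Field L] (Φ : Frame p κ L) {K : Type} [Field K] [Fintype K] [DecidableEq K]
    (hK : ringChar K ≠ 2) (ι : K →+* κ) (z : K) :
    Φ.T (ι z) ^ (Fintype.card K / 2) = ((quadraticChar K z : ℤ) : L) := by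
  have h2 : (2 : κ) ≠ 0 := by
    intro h
    have h3 : ((2 : ℕ) : κ) = 0 := by exact_mod_cast h
    rw [CharP.cast_eq_zero_iff κ p] at h3
    exact hp ((Nat.prime_dvd_prime_iff_eq Fact.out Nat.prime_two).1 h3)
  have h1 : Φ.T (-1) = -1 := by
    have e1 : Φ.T (-1) * Φ.T (-1) = 1 := by
      rw [← map_mul, neg_one_mul, neg_neg, map_one]
    rcases mul_self_eq_one_iff.1 e1 with h | h
    · exfalso
      rw [← map_one Φ.T] at h
      have h3 := Φ.T_inj h
      apply h2
      linear_combination -h3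
    · exact h
  rw [← map_pow, ← map_pow, ← quadraticChar_eq_pow_of_char_ne_two' hK]
  rcases quadraticChar_isQuadratic K z with h | h | h
  · rw [h]
    simp
  · rw [h]
    simp
  · rw [h]
    simp [h1]

theorem ell_sum {p : ℕ} [Fact p.Prime] (hp : p ≠ 2) {κ L : Type} [Field κ] [CharP κ p] [Field L]
    [CharZero L] (Φ : Frame p κ L) {ψ : AddChar (ZMod p) L} (hψ : ψ ≠ 1) {k : Type} [Field k]
    [Fintype k] [DecidableEq k] [Algebra k κ] {K : Type} [Field K] [Fintype K] [DecidableEq K]
    [Algebra k K] [Algebra (ZMod p) K] (ι : K →ₐ[k] κ) {m : ℕ}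
    (hm : Fintype.card K = Fintype.card k ^ m) (F : Polynomial (Polynomial k)) (g : Polynomial k) :
    (((quadraticChar k (-1) : ℤ) : L) * (Fintype.card k : L)) ^ m *
      (∑ x : K, ∑ t : K, ((quadraticChar K (ellVal F x t) : ℤ) : L) *
        ψ (Algebra.trace (ZMod p) K (Polynomial.aeval t g))) =
      wildSum Φ ψ (ellc p) K ι (ell4 F g) := by
  classical
  have hp1 : p.Prime := Fact.out
  have hcK : CharP K p := charP_of_injective_algebraMap (algebraMap (ZMod p) K).injective p
  have hck : CharP k p := (algebraMap k κ).charP (algebraMap k κ).injective p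
  have hrK : ringChar K ≠ 2 := by rwa [ringChar.eq K p]
  have hrk : ringChar k ≠ 2 := by rwa [ringChar.eq k p]
  -- the exponent
  have hexp : (p - 1) / 2 * ((Fintype.card K - 1) / (p - 1)) = Fintype.card K / 2 := by
    obtain ⟨r, -, hr⟩ := FiniteField.card K p
    have hodd : p % 2 = 1 := hp1.eq_two_or_odd.resolve_left hp
    have hd1 : 2 ∣ p - 1 := by omega
    have hd2 : p - 1 ∣ Fintype.card K - 1 := by
      rw [hr]
      simpa using Nat.sub_dvd_pow_sub_pow p 1 r
    have hKodd : Fintype.card K % 2 = 1 := by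
      rw [hr, Nat.pow_mod, hodd, one_pow]
      norm_num
    obtain ⟨a, ha⟩ := hd1
    obtain ⟨b, hb⟩ := hd2
    have ha0 : 0 < p - 1 := by have := hp1.two_le; omega
    rw [hb, Nat.mul_div_cancel_left _ ha0, ha, Nat.mul_div_cancel_left _ (by norm_num)]
    have h1 : Fintype.card K = 2 * (a * b) + 1 := by
      have : 0 < Fintype.card K := Fintype.card_pos
      rw [ha] at hb
      have h2 : 2 * a * b = 2 * (a * b) := by ring
      omega
    omega
  -- the characters
  set χ : MulChar K L := (quadraticChar K).ringHomComp (Int.castRingHom L) with hχ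
  have hχa : ∀ z, χ z = ((quadraticChar K z : ℤ) : L) := fun z => rfl
  have hχ1 : χ ≠ 1 := by
    intro h
    obtain ⟨a, ha⟩ := quadraticChar_exists_neg_one' hrK
    have h1 : χ a = 1 := by rw [h, MulChar.one_apply_coe]
    rw [hχa, ha] at h1
    norm_num at h1
  have hχ2 : χ.IsQuadratic := (quadraticChar_isQuadratic K).comp _
  set Ψ : AddChar K L := ψ.compAddMonoidHom (Algebra.trace (ZMod p) K).toAddMonoidHom with hΨ
  have hΨa : ∀ z, Ψ z = ψ (Algebra.trace (ZMod p) K z) := fun z => rfl
  have hΨ1 : Ψ ≠ 1 := by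
    intro h
    apply hψ
    ext a
    obtain ⟨z, hz⟩ := Algebra.trace_surjective (ZMod p) K a
    rw [← hz, ← hΨa, h]
    rfl
  set G : L := gaussSum χ Ψ with hG
  have hGsum : ∀ a : K, ∑ z : K, χ z * Ψ (z * a) = χ a * G := by
    intro a
    by_cases ha : a = 0
    · subst ha
      have h1 := MulChar.sum_eq_zero_of_ne_one hχ1
      simp only [mul_zero, AddChar.map_zero_eq_one, mul_one, h1, MulChar.map_zero, zero_mul]
    · have h1 := gaussSum_mulShift χ Ψ (Units.mk0 a ha)
      have h2 : gaussSum χ (Ψ.mulShift (Units.mk0 a ha : Kˣ)) = ∑ z : K, χ z * Ψ (z * a) := by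
        unfold gaussSum
        refine Finset.sum_congr rfl fun z _ => ?_
        rw [AddChar.mulShift_apply, Units.val_mk0, mul_comm a z]
      rw [h2, Units.val_mk0] at h1
      have h3 : χ a * χ a = 1 := by
        rw [hχa, ← Int.cast_mul, ← pow_two, quadraticChar_sq_one ha, Int.cast_one]
      rw [hG, ← h1, ← mul_assoc, h3, one_mul]
  have hG2 : G ^ 2 = (((quadraticChar k (-1) : ℤ) : L) * (Fintype.card k : L)) ^ m := by
    rw [hG, gaussSum_sq hχ1 hχ2 (AddChar.IsPrimitive.of_ne_one hΨ1), mul_pow, hχa,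
      quadraticChar_neg_one hrK, quadraticChar_neg_one hrk, hm]
    push_cast
    rw [map_pow]
    push_cast
    ring
  -- the computation
  have hwild : wildSum Φ ψ (ellc p) K ι (ell4 F g) = ∑ x : K, ∑ t : K, ∑ z : K, ∑ z' : K,
      (χ z * χ z') * (Ψ (Polynomial.aeval t g) * Ψ (z * ellVal F x t) * Ψ z') := by
    unfold wildSum
    rw [sum_fin4_68]
    refine Finset.sum_congr rfl fun x _ => Finset.sum_congr rfl fun t _ =>
      Finset.sum_congr rfl fun z _ => Finset.sum_congr rfl fun z' _ => ?_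
    congr 1
    · rw [Fin.prod_univ_four]
      have e1 := teich68 hp Φ hrK (ι : K →+* κ) z
      have e2 := teich68 hp Φ hrK (ι : K →+* κ) z'
      simp only [ellc, Matrix.cons_val_zero, Matrix.cons_val_one, Matrix.cons_val_two,
        Matrix.cons_val_three, Matrix.tail_cons, Matrix.head_cons, zero_mul,
        pow_zero, one_mul, hexp]
      exact congrArg₂ (· * ·) e1 e2
    · rw [aeval_ell4_68, ← hΨa, AddChar.map_add_eq_mul, AddChar.map_add_eq_mul]
      rfl
  rw [hwild, ← hG2, Finset.mul_sum]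
  refine Finset.sum_congr rfl fun x _ => ?_
  rw [Finset.mul_sum]
  refine Finset.sum_congr rfl fun t _ => ?_
  have e1 : ∀ z : K, ∑ z' : K, (χ z * χ z') * (Ψ (Polynomial.aeval t g) *
      Ψ (z * ellVal F x t) * Ψ z') =
      Ψ (Polynomial.aeval t g) * (χ z * Ψ (z * ellVal F x t)) * G := by
    intro z
    have h1 := hGsum 1
    simp only [mul_one, map_one, one_mul] at h1
    rw [← h1, Finset.mul_sum]
    refine Finset.sum_congr rfl fun z' _ => ?_
    ring
  simp_rw [e1]
  rw [← Finset.sum_mul, ← Finset.mul_sum, hGsum, ← hχa, ← hΨa]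
  ring

end Pool.Agent.Helper9.WS
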